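import Pool.Agent.SGD.Stmts

set_option autoImplicit false

/-! SRN: the elements of a set in increasing order. -/

namespace Pool.Agent.SGD.H91

theorem srn : SrnStmt := by
  classical
  intro n r hr A m hA c
  set B : Finset ℕ := (A.toFinset).image r with hB
  have hc : B.card = m := by
    rw [hB, Finset.card_image_of_injective _ hr, ← hA, Set.ncard_eq_toFinset_card']
  have hm : ∀ i : Fin m, ∃ v, v ∈ A ∧ r v = B.orderEmbOfFin hc i := by
    intro i
    obtain ⟨v, hv, hv'⟩ := Finset.mem_image.1 (Finset.orderEmbOfFin_mem B hc i)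
    exact ⟨v, Set.mem_toFinset.1 hv, hv'⟩
  choose g hg hg' using hm
  refine ⟨fun i => if h : i < m then g ⟨i, h⟩ else c, ?_, ?_, ?_, ?_⟩
  · intro i hi
    simp only [hi, dif_pos]
    exact hg _
  · intro i j hij hj
    have hi : i < m := hij.trans hj
    simp only [hi, hj, dif_pos]
    rw [hg', hg']
    exact (B.orderEmbOfFin hc).strictMono hij
  · intro v hv
    have h1 : r v ∈ B := by
      rw [hB]
      exact Finset.mem_image_of_mem r (Set.mem_toFinset.2 hv)
    have h2 : r v ∈ Set.range (B.orderEmbOfFin hc) := by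
      rw [Finset.range_orderEmbOfFin]
      exact h1
    obtain ⟨i, hi⟩ := h2
    refine ⟨i, i.2, ?_⟩
    simp only [i.2, dif_pos]
    apply hr
    rw [hg', hi]
  · intro i hi
    simp only [not_lt.2 hi, dif_neg, not_false_eq_true]

end Pool.Agent.SGD.H91
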